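import Pool.Agent.Lib.MP_e1f7e2_al.SU.Iface2

set_option autoImplicit false

/-!
Project SU3 (MP_e1f7e2_al): the subalgebra `Ad K = K[X 1, X 2]`, elementary automorphisms.
-/

open MvPolynomial

namespace Pool.Agent.Lib.MP_e1f7e2_al.SU.H30

section

variable {K : Type*} [Field K]

lemma Ad_eq_supported :
    Ad K = (supported K ({1, 2} : Set (Fin 3)) : Subalgebra K (MvPolynomial (Fin 3) K)) := by
  unfold Ad supported
  congr 1
  ext x
  simp [eq_comm]

lemma mem_Ad_iff {H : MvPolynomial (Fin 3) K} : H ∈ Ad K ↔ ∀ α ∈ H.support, α 0 = 0 := by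
  rw [Ad_eq_supported, mem_supported]
  constructor
  · intro h α hα
    by_contra h0
    have : (0 : Fin 3) ∈ (H.vars : Set (Fin 3)) := by
      rw [Finset.mem_coe, mem_vars]
      exact ⟨α, hα, by simpa using h0⟩
    have := h this
    simp at this
  · intro h i hi
    rw [Finset.mem_coe, mem_vars] at hi
    obtain ⟨α, hα, hi⟩ := hi
    have h0 := h α hα
    fin_cases i
    · simp [h0] at hi
    · simp
    · simp

lemma X1_mem : (X 1 : MvPolynomial (Fin 3) K) ∈ Ad K := Algebra.subset_adjoin (by simp)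
lemma X2_mem : (X 2 : MvPolynomial (Fin 3) K) ∈ Ad K := Algebra.subset_adjoin (by simp)

lemma C_mem (c : K) : (C c : MvPolynomial (Fin 3) K) ∈ Ad K := by
  have := (Ad K).algebraMap_mem c
  simpa [algebraMap_eq] using this

lemma aeval_mem {g : MvPolynomial (Fin 3) K} (hg : g ∈ Ad K) (R : Polynomial K) :
    Polynomial.aeval g R ∈ Ad K := by
  have h2 : Polynomial.aeval g R = ((Polynomial.aeval (⟨g, hg⟩ : Ad K) R : Ad K) : MvPolynomial (Fin 3) K) := by
    simp
  rw [h2]
  exact Subtype.coe_prop _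

lemma ev_mem {f g : MvPolynomial (Fin 3) K} (hf : f ∈ Ad K) (hg : g ∈ Ad K)
    (P : MvPolynomial (Fin 2) K) : ev P f g ∈ Ad K := by
  induction P using MvPolynomial.induction_on with
  | C a => rw [ev_C]; exact C_mem a
  | add p q hp hq => rw [ev_add]; exact add_mem hp hq
  | mul_X p n hp =>
    rw [ev_mul]
    refine mul_mem hp ?_
    fin_cases n
    · simpa [ev_X0] using hf
    · simpa [ev_X1] using hg

lemma exists_ev {H : MvPolynomial (Fin 3) K} (h : H ∈ Ad K) :
    ∃ P : MvPolynomial (Fin 2) K, H = ev P (X 1) (X 2) := by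
  unfold Ad at h
  induction h using Algebra.adjoin_induction with
  | mem x hx =>
    simp only [Set.mem_insert_iff, Set.mem_singleton_iff] at hx
    rcases hx with rfl | rfl
    · exact ⟨X 0, by rw [ev_X0]⟩
    · exact ⟨X 1, by rw [ev_X1]⟩
  | algebraMap r => exact ⟨C r, by rw [ev_C, algebraMap_eq]⟩
  | add x y _ _ hx hy =>
    obtain ⟨P, rfl⟩ := hx
    obtain ⟨Q, rfl⟩ := hy
    exact ⟨P + Q, by rw [ev_add]⟩
  | mul x y _ _ hx hy =>
    obtain ⟨P, rfl⟩ := hx
    obtain ⟨Q, rfl⟩ := hy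
    exact ⟨P * Q, by rw [ev_mul]⟩

lemma pderiv0_of_mem {H : MvPolynomial (Fin 3) K} (h : H ∈ Ad K) : pderiv 0 H = 0 := by
  unfold Ad at h
  induction h using Algebra.adjoin_induction with
  | mem x hx =>
    simp only [Set.mem_insert_iff, Set.mem_singleton_iff] at hx
    rcases hx with rfl | rfl
    · exact pderiv_X_of_ne (by decide)
    · exact pderiv_X_of_ne (by decide)
  | algebraMap r => rw [algebraMap_eq, pderiv_C]
  | add x y _ _ hx hy => rw [map_add, hx, hy, add_zero]
  | mul x y _ _ hx hy => rw [pderiv_mul, hx, hy]; simp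

lemma mem_of_pderiv0 [CharZero K] {H : MvPolynomial (Fin 3) K} (h : pderiv 0 H = 0) : H ∈ Ad K := by
  rw [mem_Ad_iff]
  intro α hα
  by_contra h0
  have h1 : coeff (α - Finsupp.single 0 1) (pderiv 0 H) = 0 := by rw [h]; simp
  have h2 : α - Finsupp.single 0 1 + Finsupp.single 0 1 = α := by
    ext i
    by_cases hi : i = 0
    · subst hi; simp; omega
    · simp [Ne.symm hi]
  rw [coeff_pderiv, h2] at h1
  have h3 : coeff α H ≠ 0 := mem_support_iff.mp hα
  have h4 : (((α - Finsupp.single 0 1 : Fin 3 →₀ ℕ) 0 : ℕ) : K) + 1 ≠ 0 := by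
    exact Nat.cast_add_one_ne_zero _
  rcases mul_eq_zero.mp h1 with h5 | h5
  · exact h3 h5
  · exact h4 h5

/-- the elementary map `X i ↦ X i + g`, the other variables are fixed -/
noncomputable def elHom (i : Fin 3) (g : MvPolynomial (Fin 3) K) :
    MvPolynomial (Fin 3) K →ₐ[K] MvPolynomial (Fin 3) K :=
  aeval (fun k => if k = i then X i + g else X k)

lemma elHom_self (i : Fin 3) (g : MvPolynomial (Fin 3) K) : elHom i g (X i) = X i + g := by
  simp [elHom]

lemma elHom_ne (i : Fin 3) (g : MvPolynomial (Fin 3) K) {k : Fin 3} (hk : k ≠ i) :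
    elHom i g (X k) = X k := by
  simp [elHom, hk]

lemma elHom_fix (i : Fin 3) (g h : MvPolynomial (Fin 3) K)
    (hh : h ∈ Algebra.adjoin K ((X : Fin 3 → MvPolynomial (Fin 3) K) '' {k | k ≠ i})) :
    elHom i g h = h := by
  induction hh using Algebra.adjoin_induction with
  | mem x hx =>
    obtain ⟨k, hk, rfl⟩ := hx
    exact elHom_ne i g hk
  | algebraMap r => simp
  | add x y _ _ hx hy => rw [map_add, hx, hy]
  | mul x y _ _ hx hy => rw [map_mul, hx, hy]

/-- the elementary automorphism `X i ↦ X i + g` -/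
noncomputable def el (i : Fin 3) (g : MvPolynomial (Fin 3) K)
    (hg : g ∈ Algebra.adjoin K ((X : Fin 3 → MvPolynomial (Fin 3) K) '' {k | k ≠ i})) :
    MvPolynomial (Fin 3) K ≃ₐ[K] MvPolynomial (Fin 3) K :=
  AlgEquiv.ofAlgHom (elHom i g) (elHom i (-g))
    (by
      apply MvPolynomial.algHom_ext
      intro k
      by_cases hk : k = i
      · subst hk
        simp only [AlgHom.comp_apply, elHom_self, map_add, map_neg, elHom_fix k g g hg,
          AlgHom.id_apply]
        ring
      · simp [elHom_ne _ _ hk])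
    (by
      apply MvPolynomial.algHom_ext
      intro k
      by_cases hk : k = i
      · subst hk
        simp only [AlgHom.comp_apply, elHom_self, map_add, elHom_fix k (-g) g hg,
          AlgHom.id_apply]
        ring
      · simp [elHom_ne _ _ hk])

lemma el_self (i : Fin 3) (g : MvPolynomial (Fin 3) K)
    (hg : g ∈ Algebra.adjoin K ((X : Fin 3 → MvPolynomial (Fin 3) K) '' {k | k ≠ i})) :
    el i g hg (X i) = X i + g := elHom_self i g

lemma el_ne (i : Fin 3) (g : MvPolynomial (Fin 3) K)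
    (hg : g ∈ Algebra.adjoin K ((X : Fin 3 → MvPolynomial (Fin 3) K) '' {k | k ≠ i})) {k : Fin 3}
    (hk : k ≠ i) : el i g hg (X k) = X k := elHom_ne i g hk

lemma el_mem (i : Fin 3) (g : MvPolynomial (Fin 3) K)
    (hg : g ∈ Algebra.adjoin K ((X : Fin 3 → MvPolynomial (Fin 3) K) '' {k | k ≠ i})) :
    el i g hg ∈ TAut K (X : Fin 3 → MvPolynomial (Fin 3) K) := by
  apply IsElementary.mem
  exact ⟨i, 1, g, one_ne_zero, hg, by rw [el_self, one_smul], fun j hj => el_ne i g hg hj⟩

lemma uni_mem_adjoin {i j : Fin 3} (hij : j ≠ i) (R : Polynomial K) :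
    Polynomial.aeval (X j : MvPolynomial (Fin 3) K) R ∈
      Algebra.adjoin K ((X : Fin 3 → MvPolynomial (Fin 3) K) '' {k | k ≠ i}) := by
  have hX : (X j : MvPolynomial (Fin 3) K) ∈
      Algebra.adjoin K ((X : Fin 3 → MvPolynomial (Fin 3) K) '' {k | k ≠ i}) :=
    Algebra.subset_adjoin ⟨j, hij, rfl⟩
  set S := Algebra.adjoin K ((X : Fin 3 → MvPolynomial (Fin 3) K) '' {k | k ≠ i})
  have h2 : Polynomial.aeval (X j : MvPolynomial (Fin 3) K) R =
      ((Polynomial.aeval (⟨X j, hX⟩ : S) R : S) : MvPolynomial (Fin 3) K) := by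
    simp
  rw [h2]
  exact Subtype.coe_prop _

/-- permutation of the variables -/
noncomputable def pm (σ : Equiv.Perm (Fin 3)) :
    MvPolynomial (Fin 3) K ≃ₐ[K] MvPolynomial (Fin 3) K := renameEquiv K σ

lemma pm_X (σ : Equiv.Perm (Fin 3)) (i : Fin 3) :
    (pm σ : MvPolynomial (Fin 3) K ≃ₐ[K] _) (X i) = X (σ i) := by
  simp [pm]

lemma pm_mem (σ : Equiv.Perm (Fin 3)) :
    (pm σ : MvPolynomial (Fin 3) K ≃ₐ[K] _) ∈ TAut K (X : Fin 3 → MvPolynomial (Fin 3) K) := by
  apply IsAffine.mem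
  intro i
  rw [pm_X]
  exact Submodule.subset_span (Set.mem_insert_of_mem _ ⟨σ i, rfl⟩)

end

end Pool.Agent.Lib.MP_e1f7e2_al.SU.H30
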