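import Pool.Agent.Lib.MP_e1f7e2_al.SU.H30.AdBasic

set_option autoImplicit false

/-!
Project SU3 (MP_e1f7e2_al), module JVDK: Jung - van der Kulk for `K[X 1, X 2]`.
-/

open MvPolynomial

namespace Pool.Agent.Lib.MP_e1f7e2_al.SU.H30

section

variable {K : Type*} [Field K]

/-- automorphisms fixing `X 0` and preserving `Ad` -/
def Q (φ : MvPolynomial (Fin 3) K ≃ₐ[K] MvPolynomial (Fin 3) K) : Prop :=
  φ (X 0) = X 0 ∧ φ (X 1) ∈ Ad K ∧ φ (X 2) ∈ Ad K

lemma Q.map_mem {φ : MvPolynomial (Fin 3) K ≃ₐ[K] MvPolynomial (Fin 3) K} (h : Q φ)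
    {H : MvPolynomial (Fin 3) K} (hH : H ∈ Ad K) : φ H ∈ Ad K := by
  unfold Ad at hH
  induction hH using Algebra.adjoin_induction with
  | mem x hx =>
    simp only [Set.mem_insert_iff, Set.mem_singleton_iff] at hx
    rcases hx with rfl | rfl
    · exact h.2.1
    · exact h.2.2
  | algebraMap r => rw [AlgEquiv.commutes]; exact (Ad K).algebraMap_mem r
  | add x y _ _ hx hy => rw [map_add]; exact add_mem hx hy
  | mul x y _ _ hx hy => rw [map_mul]; exact mul_mem hx hy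

lemma Q.mul {φ τ : MvPolynomial (Fin 3) K ≃ₐ[K] MvPolynomial (Fin 3) K} (h : Q φ) (h' : Q τ) :
    Q (φ * τ) := by
  refine ⟨?_, ?_, ?_⟩
  · rw [AlgEquiv.mul_apply, h'.1, h.1]
  · rw [AlgEquiv.mul_apply]; exact h.map_mem h'.2.1
  · rw [AlgEquiv.mul_apply]; exact h.map_mem h'.2.2

/-- the evaluation `X 0 ↦ 0` -/
noncomputable def e0 : MvPolynomial (Fin 3) K →ₐ[K] MvPolynomial (Fin 3) K :=
  aeval ![0, X 1, X 2]

lemma e0_fix {H : MvPolynomial (Fin 3) K} (hH : H ∈ Ad K) : e0 H = H := by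
  unfold Ad at hH
  induction hH using Algebra.adjoin_induction with
  | mem x hx =>
    simp only [Set.mem_insert_iff, Set.mem_singleton_iff] at hx
    rcases hx with rfl | rfl
    · simp [e0]
    · simp [e0]
  | algebraMap r => simp
  | add x y _ _ hx hy => rw [map_add, hx, hy]
  | mul x y _ _ hx hy => rw [map_mul, hx, hy]

lemma e0_mem (H : MvPolynomial (Fin 3) K) : e0 H ∈ Ad K := by
  induction H using MvPolynomial.induction_on with
  | C a => simp only [e0, aeval_C]; exact (Ad K).algebraMap_mem a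
  | add p q hp hq => rw [map_add]; exact add_mem hp hq
  | mul_X p n hp =>
    rw [map_mul]
    refine mul_mem hp ?_
    fin_cases n
    · simp [e0]
    · simpa [e0] using X1_mem
    · simpa [e0] using X2_mem

lemma Q.e0_comm {φ : MvPolynomial (Fin 3) K ≃ₐ[K] MvPolynomial (Fin 3) K} (h : Q φ)
    (H : MvPolynomial (Fin 3) K) : e0 (φ H) = φ (e0 H) := by
  have : (e0.comp (φ : MvPolynomial (Fin 3) K →ₐ[K] MvPolynomial (Fin 3) K)) =
      (φ : MvPolynomial (Fin 3) K →ₐ[K] MvPolynomial (Fin 3) K).comp e0 := by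
    apply MvPolynomial.algHom_ext
    intro i
    fin_cases i
    · simp [e0, h.1]
    · have := e0_fix h.2.1
      simpa [e0] using this
    · have := e0_fix h.2.2
      simpa [e0] using this
  exact congrArg (fun f : MvPolynomial (Fin 3) K →ₐ[K] MvPolynomial (Fin 3) K => f H) this

lemma Q.symm_mem {φ : MvPolynomial (Fin 3) K ≃ₐ[K] MvPolynomial (Fin 3) K} (h : Q φ)
    {H : MvPolynomial (Fin 3) K} (hH : H ∈ Ad K) : φ.symm H ∈ Ad K := by
  have h1 : e0 (φ.symm H) = φ.symm H := by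
    apply φ.injective
    rw [← h.e0_comm, AlgEquiv.apply_symm_apply, e0_fix hH]
  rw [← h1]
  exact e0_mem _

/-- every element of `Ad` is a polynomial in `φ (X 1), φ (X 2)` -/
lemma Q.exists_ev {φ : MvPolynomial (Fin 3) K ≃ₐ[K] MvPolynomial (Fin 3) K} (h : Q φ)
    {H : MvPolynomial (Fin 3) K} (hH : H ∈ Ad K) :
    ∃ P : MvPolynomial (Fin 2) K, H = ev P (φ (X 1)) (φ (X 2)) := by
  obtain ⟨P, hP⟩ := H30.exists_ev (h.symm_mem hH)
  refine ⟨P, ?_⟩
  have h1 : H = φ (ev P (X 1) (X 2)) := by rw [← hP, AlgEquiv.apply_symm_apply]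
  rw [h1]
  have : ((φ : MvPolynomial (Fin 3) K →ₐ[K] MvPolynomial (Fin 3) K).comp
      (aeval ![X 1, X 2] : MvPolynomial (Fin 2) K →ₐ[K] MvPolynomial (Fin 3) K)) =
      aeval ![φ (X 1), φ (X 2)] := by
    apply MvPolynomial.algHom_ext
    intro i
    fin_cases i <;> simp
  exact congrArg (fun f : MvPolynomial (Fin 2) K →ₐ[K] MvPolynomial (Fin 3) K => f P) this

lemma Q_el1 (R : Polynomial K) :
    Q (el 1 (Polynomial.aeval (X 2 : MvPolynomial (Fin 3) K) R) (uni_mem_adjoin (by decide) R)) := by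
  refine ⟨el_ne _ _ _ (by decide), ?_, ?_⟩
  · rw [el_self]; exact add_mem X1_mem (aeval_mem X2_mem R)
  · rw [el_ne _ _ _ (by decide)]; exact X2_mem

lemma Q_el2 (R : Polynomial K) :
    Q (el 2 (Polynomial.aeval (X 1 : MvPolynomial (Fin 3) K) R) (uni_mem_adjoin (by decide) R)) := by
  refine ⟨el_ne _ _ _ (by decide), ?_, ?_⟩
  · rw [el_ne _ _ _ (by decide)]; exact X1_mem
  · rw [el_self]; exact add_mem X2_mem (aeval_mem X1_mem R)

lemma map_aeval (φ : MvPolynomial (Fin 3) K ≃ₐ[K] MvPolynomial (Fin 3) K) (g : MvPolynomial (Fin 3) K)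
    (R : Polynomial K) : φ (Polynomial.aeval g R) = Polynomial.aeval (φ g) R := by
  have := Polynomial.aeval_algHom_apply (φ : MvPolynomial (Fin 3) K →ₐ[K] MvPolynomial (Fin 3) K) g R
  simpa using this.symm

/-! ### degrees of elements of `Ad` -/

lemma wt_add (w : Fin 3 → ℝ) (α β : Fin 3 →₀ ℕ) : wt w (α + β) = wt w α + wt w β := by
  simp only [wt, Finsupp.add_apply, Nat.cast_add, add_mul, Finset.sum_add_distrib]

lemma wt_nsmul (w : Fin 3 → ℝ) (n : ℕ) (α : Fin 3 →₀ ℕ) : wt w (n • α) = n * wt w α := by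
  simp only [wt, Finsupp.smul_apply, smul_eq_mul, Nat.cast_mul, Finset.mul_sum, mul_assoc]

lemma wt_single (w : Fin 3 → ℝ) (i : Fin 3) : wt w (Finsupp.single i 1) = w i := by
  simp [wt, Finsupp.single_apply]

lemma wt_le (w : Fin 3 → ℝ) {H : MvPolynomial (Fin 3) K} {α : Fin 3 →₀ ℕ} (hα : α ∈ H.support) :
    wt w α ≤ dg w H := by
  unfold dg
  rw [dif_pos ⟨α, hα⟩]
  exact Finset.le_sup' (wt w) hα

lemma exists_wt (w : Fin 3 → ℝ) {H : MvPolynomial (Fin 3) K} (h : 0 < dg w H) :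
    ∃ α ∈ H.support, dg w H = wt w α := by
  unfold dg at h ⊢
  by_cases hs : H.support.Nonempty
  · rw [dif_pos hs]
    exact Finset.exists_mem_eq_sup' hs (wt w)
  · rw [dif_neg hs] at h
    exact absurd h (lt_irrefl _)

/-- structure of elements of `Ad` of degree smaller than `w j` -/
lemma small_uni {w : Fin 3 → ℝ} (hw : Gen w) {i j : Fin 3} (hij : (i = 1 ∧ j = 2) ∨ (i = 2 ∧ j = 1))
    {H : MvPolynomial (Fin 3) K} (hH : H ∈ Ad K) (hd : dg w H < w j) :
    ∃ R : Polynomial K, H = Polynomial.aeval (X i : MvPolynomial (Fin 3) K) R := by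
  classical
  rw [mem_Ad_iff] at hH
  have key : ∀ α ∈ H.support, α = Finsupp.single i (α i) := by
    intro α hα
    have h0 := hH α hα
    have hle := wt_le w hα
    have hj : α j = 0 := by
      by_contra hne
      have h1 : (1 : ℝ) ≤ (α j : ℝ) := by exact_mod_cast Nat.one_le_iff_ne_zero.mpr hne
      have h2 : w j ≤ wt w α := by
        have h3 : (α j : ℝ) * w j ≤ wt w α := by
          unfold wt
          exact Finset.single_le_sum (f := fun k => (α k : ℝ) * w k)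
            (fun k _ => mul_nonneg (Nat.cast_nonneg _) (hw.pos k).le) (Finset.mem_univ j)
        nlinarith [hw.pos j]
      linarith
    ext k
    rcases hij with ⟨rfl, rfl⟩ | ⟨rfl, rfl⟩ <;> fin_cases k <;> simp_all [Finsupp.single_apply]
  refine ⟨∑ α ∈ H.support, Polynomial.monomial (α i) (coeff α H), ?_⟩
  rw [map_sum]
  conv_lhs => rw [H.as_sum]
  refine Finset.sum_congr rfl fun α hα => ?_
  rw [Polynomial.aeval_monomial, algebraMap_eq, X_pow_eq_monomial, C_mul_monomial, mul_one]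
  conv_lhs => rw [key α hα]
  rw [← key α hα]

end

section

variable {K : Type*} [Field K]

lemma br_pos_of_frame {w : Fin 3 → ℝ} (hw : Gen w) [CharZero K] (F : Facts K w) (HA : AutfrStatement K)
    {φ : MvPolynomial (Fin 3) K ≃ₐ[K] MvPolynomial (Fin 3) K} (h : Q φ) :
    w 1 + w 2 ≤ br w (φ (X 1)) (φ (X 2)) := by
  obtain ⟨c, hc, hJ⟩ := HA φ
  rw [h.1] at hJ
  have h1 : pderiv 0 (φ (X 1)) = 0 := pderiv0_of_mem h.2.1
  have h2 : pderiv 0 (φ (X 2)) = 0 := pderiv0_of_mem h.2.2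
  set M := cr (D (φ (X 1))) (D (φ (X 2))) with hM
  have hD : D (X 0 : MvPolynomial (Fin 3) K) = ![X 0, 0, 0] := by
    funext i
    fin_cases i <;> simp [D, pderiv_X]
  have h3 : (X 0 : MvPolynomial (Fin 3) K) * M 0 = C c * (X 0 * X 1 * X 2) := by
    rw [hD] at hJ
    simpa [dt] using hJ
  have h4 : M 0 = C c * (X 1 * X 2) := by
    have hX : (X 0 : MvPolynomial (Fin 3) K) ≠ 0 := X_ne_zero 0
    apply mul_left_cancel₀ hX
    rw [h3]; ring
  have h5 : dg w (M 0) = w 1 + w 2 := by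
    rw [h4, F.d.Cmul _ _ hc, F.d.mul _ _ (X_ne_zero 1) (X_ne_zero 2), F.d.X', F.d.X']
  have h6 : dg w (M 0) ≤ dv w M := le_max_left _ _
  have h7 : br w (φ (X 1)) (φ (X 2)) = dv w M := rfl
  rw [h7, ← h5]
  exact h6

/-- a weight `w i` is a combination of two weights only in the trivial way -/
lemma irr {w : Fin 3 → ℝ} (hw : Gen w) {i : Fin 3} {α β : Fin 3 →₀ ℕ} (ha : 0 < wt w α)
    (hb : 0 < wt w β) {m n : ℕ} (h : w i = m * wt w α + n * wt w β) :
    w i = wt w α ∨ w i = wt w β := by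
  classical
  rw [← wt_nsmul, ← wt_nsmul, ← wt_add, ← wt_single w i] at h
  have h1 := hw.inj _ _ h
  have hdeg : ∀ γ : Fin 3 →₀ ℕ, 0 < wt w γ → 1 ≤ γ 0 + γ 1 + γ 2 := by
    intro γ hγ
    by_contra hne
    have h0 : γ 0 = 0 := by omega
    have h1 : γ 1 = 0 := by omega
    have h2 : γ 2 = 0 := by omega
    simp [wt, Fin.sum_univ_three, h0, h1, h2] at hγ
  have hα := hdeg α ha
  have hβ := hdeg β hb
  have hs : (1 : ℕ) = m * (α 0 + α 1 + α 2) + n * (β 0 + β 1 + β 2) := by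
    have e0 := DFunLike.congr_fun h1 0
    have e1 := DFunLike.congr_fun h1 1
    have e2 := DFunLike.congr_fun h1 2
    have et : (Finsupp.single i 1 : Fin 3 →₀ ℕ) 0 + (Finsupp.single i 1 : Fin 3 →₀ ℕ) 1 +
        (Finsupp.single i 1 : Fin 3 →₀ ℕ) 2 = 1 := by
      fin_cases i <;> simp
    simp only [Finsupp.add_apply, Finsupp.smul_apply, smul_eq_mul] at e0 e1 e2
    rw [← et, e0, e1, e2]; ring
  have hmn : (m = 1 ∧ n = 0) ∨ (m = 0 ∧ n = 1) := by
    have hm : m ≤ 1 := by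
      by_contra hm
      have : 2 ≤ m * (α 0 + α 1 + α 2) := by nlinarith
      omega
    have hn : n ≤ 1 := by
      by_contra hn
      have : 2 ≤ n * (β 0 + β 1 + β 2) := by nlinarith
      omega
    have hm' : m = 0 ∨ m = 1 := by omega
    have hn' : n = 0 ∨ n = 1 := by omega
    rcases hm' with hm' | hm' <;> rcases hn' with hn' | hn'
    · rw [hm', hn'] at hs; omega
    · exact Or.inr ⟨hm', hn'⟩
    · exact Or.inl ⟨hm', hn'⟩
    · rw [hm', hn'] at hs; omega
  rcases hmn with ⟨rfl, rfl⟩ | ⟨rfl, rfl⟩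
  · left; rw [← wt_single w i, h1]; simp
  · right; rw [← wt_single w i, h1]; simp

/-- `Q φ` and minimality of the sum of the degrees in the coset -/
def MinQ (w : Fin 3 → ℝ) (φ : MvPolynomial (Fin 3) K ≃ₐ[K] MvPolynomial (Fin 3) K) : Prop :=
  Q φ ∧ ∀ τ ∈ TAut K (X : Fin 3 → MvPolynomial (Fin 3) K), Q τ →
    dg w (φ (X 1)) + dg w (φ (X 2)) ≤ dg w ((φ * τ) (X 1)) + dg w ((φ * τ) (X 2))

lemma exists_minQ {w : Fin 3 → ℝ} (F : Facts K w)
    {φ : MvPolynomial (Fin 3) K ≃ₐ[K] MvPolynomial (Fin 3) K} (h : Q φ) :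
    ∃ τ ∈ TAut K (X : Fin 3 → MvPolynomial (Fin 3) K), Q τ ∧ MinQ w (φ * τ) := by
  have hne : ∀ ρ : MvPolynomial (Fin 3) K ≃ₐ[K] MvPolynomial (Fin 3) K, ∀ i : Fin 3,
      ρ (X i) ≠ 0 := fun ρ i => by
    rw [Ne, EmbeddingLike.map_eq_zero_iff]; exact X_ne_zero i
  have hmul : ∀ ρ : MvPolynomial (Fin 3) K ≃ₐ[K] MvPolynomial (Fin 3) K,
      dg w (ρ (X 1) * ρ (X 2)) = dg w (ρ (X 1)) + dg w (ρ (X 2)) := fun ρ =>
    F.d.mul _ _ (hne ρ 1) (hne ρ 2)
  have h1 : Q (1 : MvPolynomial (Fin 3) K ≃ₐ[K] MvPolynomial (Fin 3) K) :=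
    ⟨rfl, X1_mem, X2_mem⟩
  obtain ⟨H, ⟨τ, hτ, hQ, rfl⟩, hmin⟩ := F.d.minim
    {H | ∃ τ ∈ TAut K (X : Fin 3 → MvPolynomial (Fin 3) K), Q τ ∧
      H = (φ * τ) (X 1) * (φ * τ) (X 2)} ⟨_, 1, one_mem _, h1, rfl⟩
  refine ⟨τ, hτ, hQ, h.mul hQ, ?_⟩
  intro ρ hρ hQρ
  have := hmin _ ⟨τ * ρ, mul_mem hτ hρ, hQ.mul hQρ, rfl⟩
  rw [hmul, hmul] at this
  rw [mul_assoc]
  exact this

/-- degrees of a minimal pair -/
lemma minQ_degrees [CharZero K] {w : Fin 3 → ℝ} (hw : Gen w) (F : Facts K w) (SU : SuStatement K w)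
    (SL : SuLowStatement K w) (HA : AutfrStatement K)
    {φ : MvPolynomial (Fin 3) K ≃ₐ[K] MvPolynomial (Fin 3) K} (h : MinQ w φ) :
    (dg w (φ (X 1)) = w 1 ∧ dg w (φ (X 2)) = w 2) ∨
      (dg w (φ (X 1)) = w 2 ∧ dg w (φ (X 2)) = w 1) := by
  obtain ⟨hQ, hmin⟩ := h
  have hbr := br_pos_of_frame hw F HA hQ
  have hw1 := hw.pos 1
  have hw2 := hw.pos 2
  have hbpos : 0 < br w (φ (X 1)) (φ (X 2)) := by linarith
  set f := φ (X 1) with hf
  set g := φ (X 2) with hg
  have hFr : Fr (X 0 : MvPolynomial (Fin 3) K) f g := by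
    have := HA φ
    rw [hQ.1] at this
    exact this
  have ha : 0 < dg w f := F.b.dpos _ _ _ hFr.rot
  have hb : 0 < dg w g := F.b.dpos _ _ _ hFr.rot'
  have hwne : w 1 ≠ w 2 := by
    intro he
    rw [← wt_single w 1, ← wt_single w 2] at he
    have := hw.inj _ _ he
    have := DFunLike.congr_fun this 1
    simp at this
  -- reductions are impossible
  have hred1 : ∀ R : Polynomial K, dg w f ≤ dg w (f + Polynomial.aeval g R) := by
    intro R
    have := hmin _ (el_mem 1 _ (uni_mem_adjoin (K := K) (i := 1) (j := 2) (by decide) R)) (Q_el1 R)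
    rw [AlgEquiv.mul_apply, AlgEquiv.mul_apply, el_self, el_ne _ _ _ (by decide), map_add,
      map_aeval] at this
    linarith
  have hred2 : ∀ R : Polynomial K, dg w g ≤ dg w (g + Polynomial.aeval f R) := by
    intro R
    have := hmin _ (el_mem 2 _ (uni_mem_adjoin (K := K) (i := 2) (j := 1) (by decide) R)) (Q_el2 R)
    rw [AlgEquiv.mul_apply, AlgEquiv.mul_apply, el_self, el_ne _ _ _ (by decide), map_add,
      map_aeval] at this
    linarith
  have hmon : ∀ (u v : MvPolynomial (Fin 3) K) (p : ℕ), 0 < dg w u → dg w u = p * dg w v →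
      ∃ R : Polynomial K, dg w (u + Polynomial.aeval v R) < dg w u := by
    intro u v p hu huv
    have h1 : dg w (v ^ p) = p * dg w v := F.d.pow v p
    obtain ⟨c, hc, hlt⟩ := F.d.lead u (v ^ p) hu (by rw [h1, huv])
    refine ⟨-(Polynomial.C c * Polynomial.X ^ p), ?_⟩
    have : u + Polynomial.aeval v (-(Polynomial.C c * Polynomial.X ^ p)) = u - C c * v ^ p := by
      simp [algebraMap_eq, sub_eq_add_neg]
    rw [this]; exact hlt
  -- both variables are nondegenerate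
  have hnd : ∀ (i : Fin 3) (P : MvPolynomial (Fin 2) K), (i = 1 ∨ i = 2) → (X i : MvPolynomial (Fin 3) K) = ev P f g →
      w i = dg w f ∨ w i = dg w g := by
    intro i P hi hP
    have hdi : dg w (ev P f g) = w i := by rw [← hP, F.d.X']
    have hle : dg w (ev P f g) ≤ vdg (dg w f) (dg w g) P := F.p.ev_le f g P
    rcases lt_or_eq_of_le hle with hlt | heq
    · exfalso
      obtain ⟨p, q, m, γ, S⟩ := SU f g P hbpos hlt
      obtain ⟨i', j', -, hlow⟩ := SL f g P p q m γ S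
      rw [hdi] at hlow
      by_cases hp : p = 1
      · subst hp
        have hx : dg w g = q * dg w f := by rw [S.dg', S.df]; push_cast; ring
        obtain ⟨R, hR⟩ := hmon g f q hb hx
        exact absurd (hred2 R) (not_le.mpr hR)
      by_cases hq : q = 1
      · subst hq
        have hx : dg w f = p * dg w g := by rw [S.dg', S.df]; push_cast; ring
        obtain ⟨R, hR⟩ := hmon f g p ha hx
        exact absurd (hred1 R) (not_le.mpr hR)
      have hp2 : 2 ≤ p := by have := S.hp; omega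
      have hq2 : 2 ≤ q := by have := S.hq; omega
      have hγ := S.hγ
      have hm : (1 : ℝ) ≤ m := by exact_mod_cast S.hm
      have hp2' : (2 : ℝ) ≤ p := by exact_mod_cast hp2
      have hq2' : (2 : ℝ) ≤ q := by exact_mod_cast hq2
      have h1 : (0 : ℝ) ≤ (p : ℝ) * q - p - q := by nlinarith
      have h2 : 0 ≤ ((i' : ℝ) * p + j' * q) * γ := by positivity
      have h3 : br w f g ≤ m * (((p : ℝ) * q - p - q) * γ + br w f g) := by
        have h4 : 0 ≤ ((p : ℝ) * q - p - q) * γ := mul_nonneg h1 hγ.le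
        nlinarith
      have hwi : w i < w 1 + w 2 := by
        rcases hi with rfl | rfl <;> linarith
      linarith
    · have hP0 : P ≠ 0 := by
        rintro rfl
        rw [ev_zero] at hP
        exact X_ne_zero i hP
      obtain ⟨m, -, hm⟩ := F.p.att (dg w f) (dg w g) P hP0
      rw [← heq, hdi] at hm
      obtain ⟨α, -, hα⟩ := exists_wt w ha
      obtain ⟨β, -, hβ⟩ := exists_wt w hb
      rw [hα, hβ] at hm
      have := irr hw (by rw [← hα]; exact ha) (by rw [← hβ]; exact hb) hm.symm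
      rw [hα, hβ]
      exact this
  obtain ⟨P1, hP1⟩ := hQ.exists_ev X1_mem
  obtain ⟨P2, hP2⟩ := hQ.exists_ev X2_mem
  have c1 := hnd 1 P1 (Or.inl rfl) hP1
  have c2 := hnd 2 P2 (Or.inr rfl) hP2
  rcases c1 with c1 | c1 <;> rcases c2 with c2 | c2
  · exact absurd (c1.trans c2.symm) hwne
  · exact Or.inl ⟨c1.symm, c2.symm⟩
  · exact Or.inr ⟨c2.symm, c1.symm⟩
  · exact absurd (c1.trans c2.symm) hwne

/-- the triangular case -/
lemma tri {w : Fin 3 → ℝ} (hw : Gen w) (F : Facts K w) {i j : Fin 3}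
    (hij : (i = 1 ∧ j = 2) ∨ (i = 2 ∧ j = 1)) (hlt : w i < w j)
    {φ : MvPolynomial (Fin 3) K ≃ₐ[K] MvPolynomial (Fin 3) K} (hQ : Q φ)
    (hi : dg w (φ (X i)) = w i) (hj : dg w (φ (X j)) = w j) :
    φ ∈ TAut K (X : Fin 3 → MvPolynomial (Fin 3) K) := by
  have hne : j ≠ i := by rcases hij with ⟨rfl, rfl⟩ | ⟨rfl, rfl⟩ <;> decide
  have hmi : φ (X i) ∈ Ad K := by rcases hij with ⟨rfl, rfl⟩ | ⟨rfl, rfl⟩; exacts [hQ.2.1, hQ.2.2]
  have hmj : φ (X j) ∈ Ad K := by rcases hij with ⟨rfl, rfl⟩ | ⟨rfl, rfl⟩; exacts [hQ.2.2, hQ.2.1]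
  have hXi : (X i : MvPolynomial (Fin 3) K) ∈ Ad K := by
    rcases hij with ⟨rfl, rfl⟩ | ⟨rfl, rfl⟩; exacts [X1_mem, X2_mem]
  have hXj : (X j : MvPolynomial (Fin 3) K) ∈ Ad K := by
    rcases hij with ⟨rfl, rfl⟩ | ⟨rfl, rfl⟩; exacts [X2_mem, X1_mem]
  -- first entry
  obtain ⟨c, hc, hc1⟩ := F.d.lead (φ (X i)) (X i) (by rw [hi]; exact hw.pos i) (by rw [hi, F.d.X'])
  rw [hi] at hc1
  have hm1 : φ (X i) - C c * X i ∈ Ad K := sub_mem hmi (mul_mem (C_mem c) hXi)
  have hconst : ∃ c0 : K, φ (X i) - C c * X i = C c0 := by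
    apply F.d.of_zero
    by_contra h0
    have hpos : 0 < dg w (φ (X i) - C c * X i) := lt_of_le_of_ne (F.d.nn _) (Ne.symm h0)
    obtain ⟨α, hα, hαd⟩ := exists_wt w hpos
    rw [hαd] at hc1 hpos
    have hα0 := mem_Ad_iff.mp hm1 α hα
    have hi0 : α i = 0 := by
      by_contra hne'
      have h1 : (1 : ℝ) ≤ (α i : ℝ) := by exact_mod_cast Nat.one_le_iff_ne_zero.mpr hne'
      have h3 : (α i : ℝ) * w i ≤ wt w α := by
        unfold wt
        exact Finset.single_le_sum (f := fun k => (α k : ℝ) * w k)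
          (fun k _ => mul_nonneg (Nat.cast_nonneg _) (hw.pos k).le) (Finset.mem_univ i)
      nlinarith [hw.pos i]
    have hj0 : α j = 0 := by
      by_contra hne'
      have h1 : (1 : ℝ) ≤ (α j : ℝ) := by exact_mod_cast Nat.one_le_iff_ne_zero.mpr hne'
      have h3 : (α j : ℝ) * w j ≤ wt w α := by
        unfold wt
        exact Finset.single_le_sum (f := fun k => (α k : ℝ) * w k)
          (fun k _ => mul_nonneg (Nat.cast_nonneg _) (hw.pos k).le) (Finset.mem_univ j)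
      nlinarith [hw.pos j]
    have : wt w α = 0 := by
      rcases hij with ⟨rfl, rfl⟩ | ⟨rfl, rfl⟩ <;> simp [wt, Fin.sum_univ_three, hα0, hi0, hj0]
    rw [this] at hpos
    exact lt_irrefl _ hpos
  obtain ⟨c0, hc0⟩ := hconst
  have hfi : φ (X i) = C c * X i + C c0 := by rw [← hc0]; ring
  -- second entry
  obtain ⟨d, hd, hd1⟩ := F.d.lead (φ (X j)) (X j) (by rw [hj]; exact hw.pos j) (by rw [hj, F.d.X'])
  rw [hj] at hd1
  have hm2 : φ (X j) - C d * X j ∈ Ad K := sub_mem hmj (mul_mem (C_mem d) hXj)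
  obtain ⟨R, hR⟩ := small_uni hw hij hm2 hd1
  have hfj : φ (X j) = C d * X j + Polynomial.aeval (X i : MvPolynomial (Fin 3) K) R := by
    rw [← hR]; ring
  -- the elementary map
  let T : Polynomial K := -(R.comp (Polynomial.C c⁻¹ * (Polynomial.X - Polynomial.C c0)))
  have hT : Polynomial.aeval (φ (X i)) T = - Polynomial.aeval (X i : MvPolynomial (Fin 3) K) R := by
    simp only [T, map_neg, Polynomial.aeval_comp]
    congr 2
    rw [hfi]
    simp only [map_mul, map_sub, Polynomial.aeval_C, Polynomial.aeval_X, algebraMap_eq]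
    rw [add_sub_cancel_right, ← mul_assoc, ← map_mul, inv_mul_cancel₀ hc, map_one, one_mul]
  let e := el j (Polynomial.aeval (X i : MvPolynomial (Fin 3) K) T) (uni_mem_adjoin hne.symm T)
  have he : e ∈ TAut K (X : Fin 3 → MvPolynomial (Fin 3) K) := el_mem _ _ _
  have hej : (φ * e) (X j) = C d * X j := by
    rw [AlgEquiv.mul_apply]
    simp only [e]
    rw [el_self, map_add, map_aeval, hT, hfj]; ring
  have hei : (φ * e) (X i) = C c * X i + C c0 := by
    rw [AlgEquiv.mul_apply]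
    simp only [e]
    rw [el_ne _ _ _ hne.symm, hfi]
  have he0 : (φ * e) (X 0) = X 0 := by
    rw [AlgEquiv.mul_apply]
    simp only [e]
    rw [el_ne _ _ _ (by rcases hij with ⟨rfl, rfl⟩ | ⟨rfl, rfl⟩ <;> decide), hQ.1]
  have hcov : ∀ k : Fin 3, k = 0 ∨ k = i ∨ k = j := by
    rcases hij with ⟨rfl, rfl⟩ | ⟨rfl, rfl⟩ <;> decide
  have haff : φ * e ∈ TAut K (X : Fin 3 → MvPolynomial (Fin 3) K) := by
    apply IsAffine.mem
    intro k
    have hX : ∀ l : Fin 3, (X l : MvPolynomial (Fin 3) K) ∈ Submodule.span K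
        (insert 1 (Set.range (X : Fin 3 → MvPolynomial (Fin 3) K))) := fun l =>
      Submodule.subset_span (Set.mem_insert_of_mem _ ⟨l, rfl⟩)
    have h1 : (1 : MvPolynomial (Fin 3) K) ∈ Submodule.span K
        (insert 1 (Set.range (X : Fin 3 → MvPolynomial (Fin 3) K))) :=
      Submodule.subset_span (Set.mem_insert _ _)
    rcases hcov k with rfl | rfl | rfl
    · rw [he0]; exact hX 0
    · rw [hei, ← smul_eq_C_mul]
      refine add_mem (Submodule.smul_mem _ _ (hX _)) ?_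
      have : (C c0 : MvPolynomial (Fin 3) K) = c0 • 1 := by rw [smul_eq_C_mul, mul_one]
      rw [this]
      exact Submodule.smul_mem _ _ h1
    · rw [hej, ← smul_eq_C_mul]
      exact Submodule.smul_mem _ _ (hX _)
  have : φ = φ * e * e⁻¹ := by group
  rw [this]
  exact mul_mem haff (inv_mem he)

/-- the swap of `X 1` and `X 2` -/
lemma Q_swap : Q (pm (Equiv.swap 1 2) : MvPolynomial (Fin 3) K ≃ₐ[K] MvPolynomial (Fin 3) K) := by
  refine ⟨?_, ?_, ?_⟩
  · rw [pm_X]; rfl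
  · rw [pm_X]; exact X2_mem
  · rw [pm_X, Equiv.swap_apply_right]; exact X1_mem

theorem jvdk [CharZero K] {w : Fin 3 → ℝ} (hw : Gen w) (F : Facts K w) (SU : SuStatement K w)
    (SL : SuLowStatement K w) (HA : AutfrStatement K) : JvdkStatement K := by
  intro φ h0 h1 h2
  obtain ⟨τ, hτ, hQτ, hmin⟩ := exists_minQ (w := w) F (φ := φ) ⟨h0, h1, h2⟩
  have hw12 : w 1 ≠ w 2 := by
    intro he
    rw [← wt_single w 1, ← wt_single w 2] at he
    have := hw.inj _ _ he
    have := DFunLike.congr_fun this 1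
    simp at this
  have key : ∀ ρ : MvPolynomial (Fin 3) K ≃ₐ[K] MvPolynomial (Fin 3) K, Q ρ →
      dg w (ρ (X 1)) = w 1 → dg w (ρ (X 2)) = w 2 →
      ρ ∈ TAut K (X : Fin 3 → MvPolynomial (Fin 3) K) := by
    intro ρ hρ e1 e2
    rcases lt_or_gt_of_ne hw12 with h | h
    · exact tri hw F (Or.inl ⟨rfl, rfl⟩) h hρ e1 e2
    · exact tri hw F (Or.inr ⟨rfl, rfl⟩) h hρ e2 e1
  have hφτ : φ * τ ∈ TAut K (X : Fin 3 → MvPolynomial (Fin 3) K) := by
    rcases minQ_degrees hw F SU SL HA hmin with ⟨e1, e2⟩ | ⟨e1, e2⟩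
    · exact key _ hmin.1 e1 e2
    · have hs := key (φ * τ * pm (Equiv.swap 1 2)) (hmin.1.mul Q_swap)
        (by rw [AlgEquiv.mul_apply, pm_X, Equiv.swap_apply_left]; exact e2)
        (by rw [AlgEquiv.mul_apply, pm_X, Equiv.swap_apply_right]; exact e1)
      have : φ * τ = φ * τ * pm (Equiv.swap 1 2) * (pm (Equiv.swap 1 2))⁻¹ := by group
      rw [this]
      exact mul_mem hs (inv_mem (pm_mem _))
  have : φ = φ * τ * τ⁻¹ := by group
  rw [this]
  exact mul_mem hφτ (inv_mem hτ)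

end

end Pool.Agent.Lib.MP_e1f7e2_al.SU.H30
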