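import Pool.Agent.Lib.MP_e1f7e2_al.SU.H30.Jvdk

set_option autoImplicit false

/-!
Project SU3 (MP_e1f7e2_al), module TERM.
-/

open MvPolynomial

namespace Pool.Agent.Lib.MP_e1f7e2_al.SU.H30

section

variable {K : Type*} [Field K]

lemma mem_adjoin0 {g : MvPolynomial (Fin 3) K} (hg : g ∈ Ad K) :
    g ∈ Algebra.adjoin K ((X : Fin 3 → MvPolynomial (Fin 3) K) '' {k | k ≠ 0}) := by
  refine Algebra.adjoin_mono ?_ hg
  intro x hx
  simp only [Set.mem_insert_iff, Set.mem_singleton_iff] at hx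
  rcases hx with rfl | rfl
  · exact ⟨1, by simp, rfl⟩
  · exact ⟨2, by simp, rfl⟩

/-- the map `X 0 ↦ a X 0 + g` -/
noncomputable def kHom (a : K) (g : MvPolynomial (Fin 3) K) :
    MvPolynomial (Fin 3) K →ₐ[K] MvPolynomial (Fin 3) K :=
  aeval ![C a * X 0 + g, X 1, X 2]

lemma kHom_fix (a : K) (g : MvPolynomial (Fin 3) K) {H : MvPolynomial (Fin 3) K} (hH : H ∈ Ad K) :
    kHom a g H = H := by
  unfold Ad at hH
  induction hH using Algebra.adjoin_induction with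
  | mem x hx =>
    simp only [Set.mem_insert_iff, Set.mem_singleton_iff] at hx
    rcases hx with rfl | rfl
    · simp [kHom]
    · simp [kHom]
  | algebraMap r => simp
  | add x y _ _ hx hy => rw [map_add, hx, hy]
  | mul x y _ _ hx hy => rw [map_mul, hx, hy]

lemma kHom_C (a : K) (g : MvPolynomial (Fin 3) K) (b : K) : kHom a g (C b) = C b :=
  kHom_fix a g (C_mem b)

lemma kHom_X0 (a : K) (g : MvPolynomial (Fin 3) K) : kHom a g (X 0) = C a * X 0 + g := by
  simp [kHom]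

lemma kHom_comp (a b : K) (g h : MvPolynomial (Fin 3) K) (hab : b * a = 1) (hh : h ∈ Ad K)
    (hgh : C b * g + h = 0) :
    (kHom a g).comp (kHom b h) = AlgHom.id K (MvPolynomial (Fin 3) K) := by
  apply MvPolynomial.algHom_ext
  intro i
  fin_cases i
  · simp only [Fin.zero_eta, Fin.isValue, AlgHom.comp_apply, kHom_X0, map_add, map_mul, kHom_C,
      kHom_fix a g hh, AlgHom.id_apply]
    have : (C b * C a : MvPolynomial (Fin 3) K) = 1 := by rw [← map_mul, hab, map_one]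
    linear_combination (X 0) * this + hgh
  · simp [kHom]
  · simp [kHom]

/-- the automorphism `X 0 ↦ a X 0 + g` -/
noncomputable def kEq (a : K) (ha : a ≠ 0) (g : MvPolynomial (Fin 3) K) (hg : g ∈ Ad K) :
    MvPolynomial (Fin 3) K ≃ₐ[K] MvPolynomial (Fin 3) K :=
  AlgEquiv.ofAlgHom (kHom a g) (kHom a⁻¹ (-(C a⁻¹ * g)))
    (kHom_comp a a⁻¹ g _ (inv_mul_cancel₀ ha) (neg_mem (mul_mem (C_mem _) hg)) (by ring))
    (kHom_comp a⁻¹ a _ g (mul_inv_cancel₀ ha) hg (by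
      have : (C a * C a⁻¹ : MvPolynomial (Fin 3) K) = 1 := by
        rw [← map_mul, mul_inv_cancel₀ ha, map_one]
      linear_combination (-g) * this))

lemma kEq_apply (a : K) (ha : a ≠ 0) (g : MvPolynomial (Fin 3) K) (hg : g ∈ Ad K)
    (H : MvPolynomial (Fin 3) K) : kEq a ha g hg H = kHom a g H := rfl

lemma kEq_mem (a : K) (ha : a ≠ 0) (g : MvPolynomial (Fin 3) K) (hg : g ∈ Ad K) :
    kEq a ha g hg ∈ TAut K (X : Fin 3 → MvPolynomial (Fin 3) K) := by
  apply IsElementary.mem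
  refine ⟨0, a, g, ha, mem_adjoin0 hg, ?_, ?_⟩
  · rw [kEq_apply, kHom_X0, smul_eq_C_mul]
  · intro j hj
    rw [kEq_apply]
    fin_cases j
    · exact absurd rfl hj
    · exact kHom_fix a g X1_mem
    · exact kHom_fix a g X2_mem

lemma exists_perm : ∀ i j : Fin 3, i ≠ j → ∃ σ : Equiv.Perm (Fin 3), σ 1 = i ∧ σ 2 = j := by
  decide

theorem term [CharZero K] (J : JvdkStatement K) (CF : CoefFacts K) (HA : AutfrStatement K) :
    TermStatement K := by
  intro ρ i j hij hi hj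
  have hiA := (CF.zero _).mp hi
  have hjA := (CF.zero _).mp hj
  obtain ⟨σ, hσ1, hσ2⟩ := exists_perm i j hij
  set ρ' : MvPolynomial (Fin 3) K ≃ₐ[K] MvPolynomial (Fin 3) K := ρ * pm σ with hρ'
  have hf : ρ' (X 1) ∈ Ad K := by rw [hρ', AlgEquiv.mul_apply, pm_X, hσ1]; exact hiA
  have hg : ρ' (X 2) ∈ Ad K := by rw [hρ', AlgEquiv.mul_apply, pm_X, hσ2]; exact hjA
  obtain ⟨c, hc, hJ⟩ := HA ρ'
  have hf0 := pderiv0_of_mem hf
  have hg0 := pderiv0_of_mem hg
  set f := ρ' (X 1) with hfdef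
  set g := ρ' (X 2) with hgdef
  set h := ρ' (X 0) with hhdef
  have h1 : pderiv 0 h * (pderiv 1 f * pderiv 2 g - pderiv 2 f * pderiv 1 g) = C c := by
    have hX : (X 0 * X 1 * X 2 : MvPolynomial (Fin 3) K) ≠ 0 :=
      mul_ne_zero (mul_ne_zero (X_ne_zero 0) (X_ne_zero 1)) (X_ne_zero 2)
    apply mul_left_cancel₀ hX
    have : dt (D h) (cr (D f) (D g)) = X 0 * X 1 * X 2 *
        (pderiv 0 h * (pderiv 1 f * pderiv 2 g - pderiv 2 f * pderiv 1 g)) := by
      simp only [dt, cr, D, hf0, hg0, Matrix.cons_val_zero, Matrix.cons_val_one, Matrix.cons_val]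
      ring
    rw [← this, hJ]; ring
  have hunit : IsUnit (pderiv 0 h) := by
    apply isUnit_of_mul_isUnit_left (y := pderiv 1 f * pderiv 2 g - pderiv 2 f * pderiv 1 g)
    rw [h1]
    exact (isUnit_iff_ne_zero.mpr hc).map (C : K →+* MvPolynomial (Fin 3) K)
  obtain ⟨a, ha, haC⟩ := isUnit_iff_eq_C_of_isReduced.mp hunit
  have ha0 : a ≠ 0 := ha.ne_zero
  have hg' : h - C a * X 0 ∈ Ad K := by
    apply mem_of_pderiv0
    rw [map_sub, haC, pderiv_C_mul, pderiv_X_self, mul_one, sub_self]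
  set g' := h - C a * X 0 with hg'def
  let κ := kEq a ha0 g' hg'
  have hκ : κ ∈ TAut K (X : Fin 3 → MvPolynomial (Fin 3) K) := kEq_mem _ _ _ _
  have hfix : ∀ H ∈ Ad K, κ.symm H = H := by
    intro H hH
    rw [AlgEquiv.symm_apply_eq]
    simp only [κ]
    rw [kEq_apply, kHom_fix _ _ hH]
  have hφ : κ⁻¹ * ρ' ∈ TAut K (X : Fin 3 → MvPolynomial (Fin 3) K) := by
    apply J
    · change κ.symm (ρ' (X 0)) = X 0
      rw [AlgEquiv.symm_apply_eq]
      simp only [κ]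
      rw [kEq_apply, kHom_X0]
      rw [hg'def]; ring
    · change κ.symm (ρ' (X 1)) ∈ Ad K
      rw [hfix _ hf]; exact hf
    · change κ.symm (ρ' (X 2)) ∈ Ad K
      rw [hfix _ hg]; exact hg
  have hρ'mem : ρ' ∈ TAut K (X : Fin 3 → MvPolynomial (Fin 3) K) := by
    have : ρ' = κ * (κ⁻¹ * ρ') := by group
    rw [this]
    exact mul_mem hκ hφ
  have : ρ = ρ' * (pm σ)⁻¹ := by rw [hρ']; group
  rw [this]
  exact mul_mem hρ'mem (inv_mem (pm_mem σ))

end

end Pool.Agent.Lib.MP_e1f7e2_al.SU.H30
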